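import Mathlib
import Pool.Agent.Y365.PR.Cpx

/-!
# MP_94a925_gt: which spaces `C_p(X)` embed in pseudoradial spaces

For compact Hausdorff `X` the space `C_p(X)` embeds in a regular Hausdorff pseudoradial space if and
only if it is Fréchet-Urysohn, if and only if `X` does not map continuously onto `[0,1]`.  For
Polish `X` this holds if and only if `X` is countable.
-/

set_option autoImplicit false

open Set Filter Topology

namespace Pool.Agent.Results.MP_94a925_gt.CompactAndPolish

universe u w

/-- The transfinite sequence `(s α)_{α < κ}` converges to `x`: every neighbourhood of `x` contains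
`s α` for all sufficiently large `α < κ`. -/
def TransConverges {Z : Type u} [TopologicalSpace Z] (κ : Ordinal.{u}) (s : Ordinal.{u} → Z)
    (x : Z) : Prop :=
  ∀ U ∈ 𝓝 x, ∃ β < κ, ∀ α, β ≤ α → α < κ → s α ∈ U

/-- `A` is radially closed: every point to which some transfinite sequence of points of `A`
converges lies in `A`. -/
def RadiallyClosed {Z : Type u} [TopologicalSpace Z] (A : Set Z) : Prop :=
  ∀ (κ : Ordinal.{u}) (s : Ordinal.{u} → Z) (x : Z),
    (∀ α < κ, s α ∈ A) → TransConverges κ s x → x ∈ A

/-- `Z` is pseudoradial: every radially closed subset is closed. -/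
def Pseudoradial (Z : Type u) [TopologicalSpace Z] : Prop :=
  ∀ A : Set Z, RadiallyClosed A → IsClosed A

/-- `C_p(X)`: the continuous real functions on `X`, with the topology of pointwise convergence (the
subspace topology of the product `X → ℝ`). -/
abbrev Cp (X : Type u) [TopologicalSpace X] : Type u := {f : X → ℝ // Continuous f}

/-- The space `Y` is homeomorphic to a subspace of a regular Hausdorff pseudoradial space. -/
def EmbedsInPseudoradial (Y : Type u) [TopologicalSpace Y] : Prop :=
  ∃ (Z : Type u) (_ : TopologicalSpace Z), T3Space Z ∧ Pseudoradial Z ∧ ∃ e : Y → Z, IsEmbedding e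

/-- `X` maps continuously onto `[0,1]`. -/
def MapsOntoInterval (X : Type u) [TopologicalSpace X] : Prop :=
  ∃ q : X → Set.Icc (0 : ℝ) 1, Continuous q ∧ Function.Surjective q

theorem result :
    -- compact spaces
    (∀ (X : Type u) [TopologicalSpace X] [CompactSpace X] [T2Space X],
      [EmbedsInPseudoradial (Cp X), FrechetUrysohnSpace (Cp X), ¬ MapsOntoInterval X].TFAE) ∧
    -- Polish spaces
    (∀ (X : Type u) [TopologicalSpace X] [PolishSpace X],
      [EmbedsInPseudoradial (Cp X), FrechetUrysohnSpace (Cp X), ¬ MapsOntoInterval X,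
        Countable X].TFAE) ∧
    -- every space which maps onto the interval
    (∀ (X : Type u) [TopologicalSpace X], MapsOntoInterval X →
      ∀ (Z : Type w) [TopologicalSpace Z] [T3Space Z], Pseudoradial Z →
        ¬ ∃ e : Cp X → Z, IsEmbedding e) ∧
    -- in particular the interval itself: the question
    (∀ (Z : Type w) [TopologicalSpace Z] [T3Space Z], Pseudoradial Z →
      ¬ ∃ e : Cp (Set.Icc (0 : ℝ) 1) → Z, IsEmbedding e) := by
  refine ⟨fun X _ _ _ => Pool.Agent.Y365.PR.compact_case X,
    fun X _ _ => Pool.Agent.Y365.PR.polish_case X, ?_, ?_⟩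
  · rintro X _ hX Z _ _ hZ ⟨e, he⟩
    exact Pool.Agent.Y365.PR.no_embed hX hZ he
  · rintro Z _ _ hZ ⟨e, he⟩
    exact Pool.Agent.Y365.PR.no_embed (X := Set.Icc (0 : ℝ) 1)
      ⟨id, continuous_id, Function.surjective_id⟩ hZ he

end Pool.Agent.Results.MP_94a925_gt.CompactAndPolish
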